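import Mathlib
import Pool.Agent.H77.TF.Stm2

set_option autoImplicit false

open Module

namespace Pool.Agent.H66.TG

open Pool.Agent.H77.TF

theorem one_le_of_ne_bot {K V : Type} [Field K] [AddCommGroup V] [Module K V]
    [FiniteDimensional K V] {S : Submodule K V} (h : S ≠ ⊥) : 1 ≤ finrank K S := by
  rw [Nat.one_le_iff_ne_zero]
  intro h0
  exact h (Submodule.finrank_eq_zero.1 h0)

theorem gen (hGN1 : S_GN1) (hPLU : S_PLU) : S_GEN := by
  intro K _ _ l ν _ A hl
  have : Finite (Submodule K (Fin l → K)) :=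
    Finite.of_injective (fun S : Submodule K (Fin l → K) => (S : Set (Fin l → K)))
      SetLike.coe_injective
  constructor
  · by_cases h : uncD A = 0
    · exact Or.inl h
    · right
      have hne : Nonempty {W : Submodule K (Fin l → K) // finrank K W = 2 ∧ ∀ i, A i ∉ W} := by
        by_contra hcon
        rw [not_nonempty_iff] at hcon
        apply h
        unfold uncD
        exact Nat.card_of_isEmpty
      obtain ⟨⟨W₀, h0, hA⟩⟩ := hne
      exact (hGN1 K l ν A W₀ hl h0 hA).1
  · intro heq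
    by_cases hex : ∃ W₁ : Submodule K (Fin l → K), finrank K W₁ = 2 ∧ ∀ i, A i ∉ W₁
    · obtain ⟨W₁, h1, hA1⟩ := hex
      by_cases hex2 : ∃ W₂ : Submodule K (Fin l → K), W₂ ≠ W₁ ∧ finrank K W₂ = 2 ∧ ∀ i, A i ∉ W₂
      · obtain ⟨W₂, hne, h2, hA2⟩ := hex2
        have g1 := (hGN1 K l ν A W₁ hl h1 hA1).2 heq
        have g2 := (hGN1 K l ν A W₂ hl h2 hA2).2 heq
        have hsum := Submodule.finrank_sup_add_finrank_inf_eq W₁ W₂
        have hge : 1 ≤ finrank K (W₁ ⊓ W₂ : Submodule K (Fin l → K)) :=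
          one_le_of_ne_bot (g2.1 W₁ h1 hA1)
        have hle : finrank K (W₁ ⊓ W₂ : Submodule K (Fin l → K)) ≤ 1 := by
          by_contra hlt
          have e1 := Submodule.eq_of_le_of_finrank_le (inf_le_left : W₁ ⊓ W₂ ≤ W₁) (by omega)
          have e2 := Submodule.eq_of_le_of_finrank_le (inf_le_right : W₁ ⊓ W₂ ≤ W₂) (by omega)
          exact hne (e2.symm.trans e1)
        have hU : finrank K (W₁ ⊔ W₂ : Submodule K (Fin l → K)) = 3 := by omega
        have hcnt := g1.2 (W₁ ⊔ W₂) hU le_sup_left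
        obtain ⟨r, hr0, hr⟩ := (hPLU K l ν A (W₁ ⊔ W₂) hU).2 hcnt
        have hr12 : r ∈ W₁ ⊓ W₂ :=
          Submodule.mem_inf.2 ⟨hr W₁ h1 le_sup_left hA1, hr W₂ h2 le_sup_right hA2⟩
        refine ⟨r, hr0, ?_⟩
        intro W hW hAW
        by_cases hWU : W ≤ W₁ ⊔ W₂
        · exact hr W hW hWU hAW
        · have hlt : finrank K (W ⊓ (W₁ ⊔ W₂) : Submodule K (Fin l → K)) ≤ 1 := by
            by_contra hlt
            have e1 := Submodule.eq_of_le_of_finrank_le
              (inf_le_left : W ⊓ (W₁ ⊔ W₂) ≤ W) (by omega)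
            exact hWU (e1 ▸ inf_le_right)
          have k1 : 1 ≤ finrank K (W ⊓ W₁ : Submodule K (Fin l → K)) :=
            one_le_of_ne_bot (g1.1 W hW hAW)
          have k2 : 1 ≤ finrank K (W ⊓ W₂ : Submodule K (Fin l → K)) :=
            one_le_of_ne_bot (g2.1 W hW hAW)
          have e1 := Submodule.eq_of_le_of_finrank_le
            (inf_le_inf_left W le_sup_left : W ⊓ W₁ ≤ W ⊓ (W₁ ⊔ W₂)) (by omega)
          have e2 := Submodule.eq_of_le_of_finrank_le
            (inf_le_inf_left W le_sup_right : W ⊓ W₂ ≤ W ⊓ (W₁ ⊔ W₂)) (by omega)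
          have hle2 : W ⊓ (W₁ ⊔ W₂) ≤ W₁ ⊓ W₂ := by
            refine le_inf ?_ ?_
            · rw [← e1]
              exact inf_le_right
            · rw [← e2]
              exact inf_le_right
          have k3 : finrank K (W ⊓ W₁ : Submodule K (Fin l → K)) =
              finrank K (W ⊓ (W₁ ⊔ W₂) : Submodule K (Fin l → K)) :=
            congrArg (fun S : Submodule K (Fin l → K) => finrank K S) e1
          have e3 := Submodule.eq_of_le_of_finrank_le hle2 (by omega)
          rw [← e3] at hr12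
          exact (Submodule.mem_inf.1 hr12).1
      · have hne : W₁ ≠ ⊥ := by
          rintro rfl
          rw [finrank_bot] at h1
          omega
        obtain ⟨r, hrW, hr0⟩ := Submodule.exists_mem_ne_zero_of_ne_bot hne
        refine ⟨r, hr0, fun W hW hAW => ?_⟩
        have hWW : W = W₁ := by
          by_contra hcon
          exact hex2 ⟨W, hcon, hW, hAW⟩
        rw [hWW]
        exact hrW
    · refine ⟨Pi.single ⟨0, by omega⟩ 1, ?_, fun W hW hAW => absurd ⟨W, hW, hAW⟩ hex⟩
      intro h
      have := congrFun h ⟨0, by omega⟩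
      rw [Pi.single_eq_same, Pi.zero_apply] at this
      exact one_ne_zero this

end Pool.Agent.H66.TG
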