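import Mathlib
import Pool.Agent.H77.TF.Stm2

set_option autoImplicit false

open Module

namespace Pool.Agent.H66.TG

open Pool.Agent.H77.TF

theorem finrank_comap_mkQ {K V : Type} [Field K] [AddCommGroup V] [Module K V]
    [FiniteDimensional K V] (W : Submodule K V) (H : Submodule K (V ⧸ W)) :
    finrank K (H.comap W.mkQ) = finrank K H + finrank K W := by
  let f : (H.comap W.mkQ) →ₗ[K] H := W.mkQ.restrict (fun x hx => hx)
  have hf := LinearMap.finrank_range_add_finrank_ker f
  have h1 : LinearMap.range f = ⊤ := by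
    rw [LinearMap.range_eq_top]
    rintro ⟨y, hy⟩
    obtain ⟨x, rfl⟩ := W.mkQ_surjective y
    exact ⟨⟨x, hy⟩, rfl⟩
  have h2 : LinearMap.ker f = Submodule.comap (H.comap W.mkQ).subtype W := by
    ext ⟨x, hx⟩
    rw [LinearMap.mem_ker, Submodule.mem_comap]
    constructor
    · intro h
      have := congrArg Subtype.val h
      exact (Submodule.Quotient.mk_eq_zero W).1 this
    · intro h
      apply Subtype.ext
      exact (Submodule.Quotient.mk_eq_zero W).2 h
  have hle : W ≤ H.comap W.mkQ := by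
    intro x hx
    rw [Submodule.mem_comap]
    have : W.mkQ x = 0 := (Submodule.Quotient.mk_eq_zero W).2 hx
    rw [this]
    exact H.zero_mem
  have h3 : finrank K (Submodule.comap (H.comap W.mkQ).subtype W) = finrank K W :=
    (Submodule.comapSubtypeEquivOfLe hle).finrank_eq
  rw [h1, h2, h3, finrank_top] at hf
  exact hf.symm

/-- The number of three-dimensional spaces containing a given plane. -/
theorem card_U {K V : Type} [Field K] [Fintype K] [AddCommGroup V] [Module K V]
    [FiniteDimensional K V] (l : ℕ) (hl : finrank K V = l) (W : Submodule K V)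
    (hW : finrank K W = 2) :
    Nat.card {U : Submodule K V // finrank K U = 3 ∧ W ≤ U} =
      ∑ k ∈ Finset.range (l - 2), Fintype.card K ^ k := by
  have hq : finrank K (V ⧸ W) = l - 2 := by
    have := W.finrank_quotient_add_finrank
    omega
  have h := Projectivization.card_of_finrank K (V ⧸ W) hq
  rw [Nat.card_eq_fintype_card (α := K)] at h
  rw [← h]
  refine Nat.card_congr ?_
  refine Equiv.trans ?_ (Projectivization.equivSubmodule K (V ⧸ W)).symm
  refine ⟨fun U => ⟨(Submodule.comapMkQRelIso W).symm ⟨U.1, U.2.2⟩, ?_⟩,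
    fun H => ⟨(Submodule.comapMkQRelIso W H.1).1, ?_, (Submodule.comapMkQRelIso W H.1).2⟩, ?_, ?_⟩
  · have h1 := finrank_comap_mkQ W ((Submodule.comapMkQRelIso W).symm ⟨U.1, U.2.2⟩)
    have h2 : ((Submodule.comapMkQRelIso W).symm ⟨U.1, U.2.2⟩).comap W.mkQ = U.1 := by
      have := (Submodule.comapMkQRelIso W).apply_symm_apply ⟨U.1, U.2.2⟩
      exact congrArg Subtype.val this
    have h3 := U.2.1
    have h4 : finrank K (((Submodule.comapMkQRelIso W).symm ⟨U.1, U.2.2⟩).comap W.mkQ) = 3 :=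
      (congrArg (fun S : Submodule K V => finrank K S) h2).trans h3
    omega
  · have h1 := finrank_comap_mkQ W H.1
    have : (Submodule.comapMkQRelIso W H.1).1 = H.1.comap W.mkQ := rfl
    rw [this, h1, H.2, hW]
  · intro U
    apply Subtype.ext
    have h5 : ((Submodule.comapMkQRelIso W)
        ((Submodule.comapMkQRelIso W).symm ⟨U.1, U.2.2⟩)).1 = U.1 :=
      congrArg Subtype.val ((Submodule.comapMkQRelIso W).apply_symm_apply ⟨U.1, U.2.2⟩)
    exact h5
  · intro H
    apply Subtype.ext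
    have := (Submodule.comapMkQRelIso W).symm_apply_apply H.1
    exact this

theorem thr_eq (q l : ℕ) (hl : 3 ≤ l) :
    thr q l + ∑ k ∈ Finset.range (l - 2), q ^ k =
      1 + 2 * q * ∑ k ∈ Finset.range (l - 2), q ^ k := by
  obtain ⟨m, rfl⟩ : ∃ m, l = m + 3 := ⟨l - 3, by omega⟩
  unfold thr
  have h1 : m + 3 - 2 = m + 1 := by omega
  rw [h1]
  have h2 : ∑ k ∈ Finset.range (m + 1), q ^ k = 1 + ∑ k ∈ Finset.Ico 1 (m + 1), q ^ k := by
    rw [Finset.range_eq_Ico, Finset.sum_eq_sum_Ico_succ_bot (by omega)]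
    simp
  have h3 : q * ∑ k ∈ Finset.range (m + 1), q ^ k =
      ∑ k ∈ Finset.Ico 1 (m + 1), q ^ k + q ^ (m + 1) := by
    have h4 : q * ∑ k ∈ Finset.range (m + 1), q ^ k = ∑ k ∈ Finset.Ico 1 (m + 2), q ^ k := by
      rw [Finset.mul_sum, Finset.sum_Ico_eq_sum_range]
      refine Finset.sum_congr (by congr 1) fun k _ => ?_
      rw [add_comm 1 k, pow_succ, mul_comm]
    rw [h4, Finset.sum_Ico_succ_top (by omega)]
  rw [mul_assoc, h3, h2]
  ring

/-- A space of dimension three is spanned by two different planes in it. -/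
theorem sup_eq {K V : Type} [Field K] [AddCommGroup V] [Module K V] [FiniteDimensional K V]
    {W₀ W U : Submodule K V} (h0 : finrank K W₀ = 2) (hW : finrank K W = 2)
    (hU : finrank K U = 3) (h0U : W₀ ≤ U) (hWU : W ≤ U) (hne : W ≠ W₀) : U = W ⊔ W₀ := by
  have hle : W ⊔ W₀ ≤ U := sup_le hWU h0U
  symm
  apply Submodule.eq_of_le_of_finrank_le hle
  rw [hU]
  by_contra hlt
  have h2 : finrank K (W ⊔ W₀ : Submodule K V) ≤ finrank K W := by omega
  have h3 := Submodule.eq_of_le_of_finrank_le (le_sup_left : W ≤ W ⊔ W₀) h2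
  have h4 : W₀ ≤ W := h3 ▸ le_sup_right
  have h5 := Submodule.eq_of_le_of_finrank_le h4 (by omega)
  exact hne h5.symm

theorem sup_span_eq {K V : Type} [Field K] [AddCommGroup V] [Module K V] [FiniteDimensional K V]
    {W₀ U : Submodule K V} {a : V} (h0 : finrank K W₀ = 2)
    (hU : finrank K U = 3) (h0U : W₀ ≤ U) (haU : a ∈ U) (ha : a ∉ W₀) :
    U = W₀ ⊔ Submodule.span K {a} := by
  have hle : W₀ ⊔ Submodule.span K {a} ≤ U :=
    sup_le h0U ((Submodule.span_singleton_le_iff_mem a U).2 haU)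
  symm
  apply Submodule.eq_of_le_of_finrank_le hle
  rw [hU]
  by_contra hlt
  have h2 : finrank K (W₀ ⊔ Submodule.span K {a} : Submodule K V) ≤ finrank K W₀ := by omega
  have h3 := Submodule.eq_of_le_of_finrank_le
    (le_sup_left : W₀ ≤ W₀ ⊔ Submodule.span K {a}) h2
  apply ha
  rw [h3]
  exact (le_sup_right : Submodule.span K {a} ≤ _) (Submodule.mem_span_singleton_self a)

open Classical in
theorem gn1 (hPLU : S_PLU) : S_GN1 := by
  intro K _ _ l ν _ A W₀ hl h0 hA
  have : Finite (Submodule K (Fin l → K)) :=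
    Finite.of_injective (fun S : Submodule K (Fin l → K) => (S : Set (Fin l → K)))
      SetLike.coe_injective
  have : Fintype (Submodule K (Fin l → K)) := Fintype.ofFinite _
  set q := Fintype.card K with hq
  set 𝒰 : Finset (Submodule K (Fin l → K)) :=
    Finset.univ.filter (fun U => finrank K U = 3 ∧ W₀ ≤ U) with h𝒰
  set M : Finset (Submodule K (Fin l → K)) :=
    Finset.univ.filter (fun W => finrank K W = 2 ∧ ∀ i, A i ∉ W) with hM
  have hUM : uncD A = M.card := by
    unfold uncD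
    rw [Nat.card_eq_fintype_card, Fintype.card_subtype]
  have h𝒰c : 𝒰.card = ∑ k ∈ Finset.range (l - 2), q ^ k := by
    rw [← card_U l (by simp) W₀ h0, Nat.card_eq_fintype_card, Fintype.card_subtype]
  have hthr := thr_eq q l hl
  rw [← h𝒰c] at hthr
  have hW0M : W₀ ∈ M := by
    rw [hM, Finset.mem_filter]
    exact ⟨Finset.mem_univ _, h0, hA⟩
  -- the counts inside `U`
  set v : Submodule K (Fin l → K) → ℕ := fun U => (M.filter (fun W => W ≤ U)).card with hv
  set n : Submodule K (Fin l → K) → ℕ :=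
    fun U => (Finset.univ.filter (fun i => A i ∈ U)).card with hn
  have hvc : ∀ U : Submodule K (Fin l → K),
      Nat.card {W : Submodule K (Fin l → K) // finrank K W = 2 ∧ W ≤ U ∧ ∀ i, A i ∉ W} = v U := by
    intro U
    rw [Nat.card_eq_fintype_card, Fintype.card_subtype, hv, hM]
    simp only [Finset.filter_filter]
    congr 1
    ext W
    simp only [Finset.mem_filter, Finset.mem_univ, true_and]
    tauto
  have hnc : ∀ U : Submodule K (Fin l → K), Nat.card {i // A i ∈ U} = n U := by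
    intro U
    rw [Nat.card_eq_fintype_card, Fintype.card_subtype]
  -- the lower bound from PLU
  have hlow : ∀ U ∈ 𝒰, 2 * q ≤ v U + n U := by
    intro U hU
    rw [h𝒰, Finset.mem_filter] at hU
    have h := (hPLU K l ν A U hU.2.1).1
    rw [hvc, hnc] at h
    rcases h with h | h
    · exfalso
      have : W₀ ∈ M.filter (fun W => W ≤ U) := Finset.mem_filter.2 ⟨hW0M, hU.2.2⟩
      rw [hv] at h
      rw [Finset.card_eq_zero] at h
      rw [h] at this
      exact absurd this (Finset.notMem_empty _)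
    · exact h
  -- double counting
  have hsumv : ∑ U ∈ 𝒰, v U = ∑ W ∈ M, (𝒰.filter (fun U => W ≤ U)).card := by
    simp only [hv, Finset.card_filter]
    exact Finset.sum_comm
  have hsumn : ∑ U ∈ 𝒰, n U = ∑ i : ν, (𝒰.filter (fun U => A i ∈ U)).card := by
    simp only [hn, Finset.card_filter]
    exact Finset.sum_comm
  have hcW0 : (𝒰.filter (fun U => W₀ ≤ U)).card = 𝒰.card := by
    congr 1
    rw [Finset.filter_eq_self]
    intro U hU
    rw [h𝒰, Finset.mem_filter] at hU
    exact hU.2.2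
  have hcW : ∀ W ∈ M.erase W₀, (𝒰.filter (fun U => W ≤ U)).card ≤ 1 := by
    intro W hW
    rw [Finset.mem_erase, hM, Finset.mem_filter] at hW
    rw [Finset.card_le_one]
    intro U hU U' hU'
    rw [Finset.mem_filter, h𝒰, Finset.mem_filter] at hU hU'
    rw [sup_eq h0 hW.2.2.1 hU.1.2.1 hU.1.2.2 hU.2 hW.1,
      sup_eq h0 hW.2.2.1 hU'.1.2.1 hU'.1.2.2 hU'.2 hW.1]
  have hcW' : ∀ W ∈ M.erase W₀, W ⊓ W₀ = ⊥ → (𝒰.filter (fun U => W ≤ U)).card = 0 := by
    intro W hW hbot
    rw [Finset.mem_erase, hM, Finset.mem_filter] at hW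
    rw [Finset.card_eq_zero, Finset.filter_eq_empty_iff]
    intro U hU hWU
    rw [h𝒰, Finset.mem_filter] at hU
    have h1 : W ⊔ W₀ ≤ U := sup_le hWU hU.2.2
    have h2 := Submodule.finrank_sup_add_finrank_inf_eq W W₀
    rw [hbot, finrank_bot, hW.2.2.1, h0] at h2
    have h3 := Submodule.finrank_mono h1
    rw [hU.2.1] at h3
    omega
  have hci : ∀ i : ν, (𝒰.filter (fun U => A i ∈ U)).card ≤ 1 := by
    intro i
    rw [Finset.card_le_one]
    intro U hU U' hU'
    rw [Finset.mem_filter, h𝒰, Finset.mem_filter] at hU hU'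
    rw [sup_span_eq h0 hU.1.2.1 hU.1.2.2 hU.2 (hA i),
      sup_span_eq h0 hU'.1.2.1 hU'.1.2.2 hU'.2 (hA i)]
  have hsv : ∑ U ∈ 𝒰, v U = 𝒰.card + ∑ W ∈ M.erase W₀, (𝒰.filter (fun U => W ≤ U)).card := by
    rw [hsumv, ← Finset.add_sum_erase M _ hW0M, hcW0]
  have hs1 : ∑ W ∈ M.erase W₀, (𝒰.filter (fun U => W ≤ U)).card ≤ (M.erase W₀).card := by
    calc _ ≤ ∑ W ∈ M.erase W₀, 1 := Finset.sum_le_sum hcW
      _ = _ := by simp
  have hs2 : ∑ U ∈ 𝒰, n U ≤ Fintype.card ν := by
    rw [hsumn]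
    calc _ ≤ ∑ _i : ν, 1 := Finset.sum_le_sum fun i _ => hci i
      _ = _ := by simp
  have hs3 : 2 * q * 𝒰.card ≤ ∑ U ∈ 𝒰, (v U + n U) := by
    calc 2 * q * 𝒰.card = ∑ _U ∈ 𝒰, 2 * q := by rw [Finset.sum_const, smul_eq_mul, mul_comm]
      _ ≤ _ := Finset.sum_le_sum hlow
  rw [Finset.sum_add_distrib] at hs3
  have hce : (M.erase W₀).card + 1 = M.card := Finset.card_erase_add_one hW0M
  constructor
  · rw [hUM]
    omega
  · intro heq
    rw [hUM] at heq
    constructor
    · intro W hW2 hWA hbot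
      have hne : W ≠ W₀ := by
        rintro rfl
        rw [inf_idem] at hbot
        rw [hbot, finrank_bot] at hW2
        omega
      have hWM : W ∈ M.erase W₀ := by
        rw [Finset.mem_erase, hM, Finset.mem_filter]
        exact ⟨hne, Finset.mem_univ _, hW2, hWA⟩
      have h1 : ∑ W ∈ M.erase W₀, (𝒰.filter (fun U => W ≤ U)).card < ∑ W ∈ M.erase W₀, 1 := by
        refine Finset.sum_lt_sum hcW ⟨W, hWM, ?_⟩
        rw [hcW' W hWM hbot]
        exact Nat.zero_lt_one
      rw [Finset.sum_const, smul_eq_mul, mul_one] at h1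
      omega
    · intro U hU hWU
      rw [hvc, hnc]
      have hU𝒰 : U ∈ 𝒰 := by
        rw [h𝒰, Finset.mem_filter]
        exact ⟨Finset.mem_univ _, hU, hWU⟩
      by_contra hne
      have hlt : 2 * q < v U + n U := lt_of_le_of_ne (hlow U hU𝒰) (fun h => hne h.symm)
      have h1 : ∑ _U ∈ 𝒰, 2 * q < ∑ U ∈ 𝒰, (v U + n U) :=
        Finset.sum_lt_sum hlow ⟨U, hU𝒰, hlt⟩
      rw [Finset.sum_const, smul_eq_mul, mul_comm, Finset.sum_add_distrib] at h1
      omega

end Pool.Agent.H66.TG
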